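import Pool.Agent.U523.WC.Mod3

/-!
# Covariant operators over a measure preserving transformation (MP_5ac32f_an)

Let `τ` be an invertible measure preserving transformation of a probability space `(Ω, μ)` with
countably many measurable sets separating the points. Let the bounded measurable functions act on a
Banach space `X` by operators `M(f)` with `‖M(f)‖ ≤ K sup |f|`, `M(1) = 1`, `M(f g) = M(f) M(g)`,
`M(c f) = c M(f)` and `M(1_E) ≠ 0` for all sets `E` of positive measure. For example `X = L^p(μ; Y)` with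
any Banach space `Y`, for instance of infinite dimension.

(0) Let `T` be an invertible operator with `T M(f) = M(f ∘ τ) T`, for example
`(T f)(v) = A(v) f(τ v)` on `L^p(μ; Y)` with operators `A(v)` of `Y`. If for some set `E` of positive measure
of points with infinite orbits and some `t < 1` the norms of `M(1_E) T^n` and `T^n M(1_E)` are at most
`exp (R (1 + |n|)^t)` for all integers `n`, then `T` has a nontrivial closed hyperinvariant subspace.

Let now `U` be an invertible operator of `X` with `‖U^n‖ ≤ K` for all integers `n` and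
`U M(f) = M(f ∘ τ) U`, for example `(U f)(v) = U(v) f(τ v)` for isometries `U(v)` of `Y` onto `Y`, let
`w` be measurable with `|w|` and `1/|w|` bounded, and `T = M(w) U`.

(1) Suppose that for some numbers `l` and `t < 1` there is a set of positive measure of points `v`
whose orbit is infinite and for which `|∑_{0 ≤ k < n} (log |w(τ^k v)| - l)|` and
`|∑_{0 ≤ k < n} (log |w(τ^{-k-1} v)| - l)|` are at most `R(v) (1 + n)^t` for all `n`. Then `T` has a
nontrivial closed hyperinvariant subspace.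

(2) This holds if almost every orbit is infinite and
`∫ (∑_{0 ≤ k < n} (log |w(τ^k v)| - l))² dμ = O(n^{2 - 2δ})` for some `l` and `δ > 0`, for example for
Bernoulli shifts with a weight which depends on one coordinate.

Proof of (0). Let `P = M(1_E)`. Take `x_0 = P x_0 ≠ 0`, a norming functional `y'` of `x_0`, `x_n = T^n x_0`
and `y_n = y' P T^n`. There are sequences `a_n = O(exp (-c (1 + |n|)^s))`, `t < s < 1`, `a_0 ≠ 0`, such
that the convolution of `a` with `b_n = (-1)^n a_n` is zero: the Fourier coefficients of a function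
vanishing on half of the circle. For operators `S` commuting with `T` one has
`y_m(S x_n) = y_0(S x_{m+n})`, so the functional `∑ b_m y_m` annihilates `S` applied to the vector
`∑ a_n x_n`. Both are different from zero if `E` is chosen so small that `τ^n E` does not meet `E` for
`0 < |n| ≤ N`, since `P T^n P = 0` for these `n`. For (1) note `T^n = M(w_n) U^n` with the cocycle `w_n` of
`w`, and for (2) the polynomial bound almost everywhere follows from the mean squares along a sequence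
`n = j^m` and a bound of the gaps in the mean.
-/

set_option autoImplicit false
open MeasureTheory

namespace Pool.Agent.Results.MP_5ac32f_an.CovariantOperators

/-- `T` has a closed subspace other than `0` and the whole space which is invariant under every bounded
operator commuting with `T`. -/
def HasHyperinvariant {X : Type} [NormedAddCommGroup X] [NormedSpace ℂ X] (T : X →L[ℂ] X) : Prop :=
  ∃ V : Submodule ℂ X, IsClosed (V : Set X) ∧ V ≠ ⊥ ∧ V ≠ ⊤ ∧
    ∀ S : X →L[ℂ] X, S * T = T * S → ∀ x ∈ V, S x ∈ V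

/-- The integer iterates `τ ^ n`. -/
def iter {Ω : Type} [MeasurableSpace Ω] (τ : Ω ≃ᵐ Ω) (n : ℤ) (v : Ω) : Ω :=
  ((τ.toEquiv : Equiv.Perm Ω) ^ n) v

/-- Measurable and bounded functions. -/
def BoundedMeasurable {Ω : Type} [MeasurableSpace Ω] (f : Ω → ℂ) : Prop :=
  Measurable f ∧ ∃ C : ℝ, ∀ v, ‖f v‖ ≤ C

/-- `M` is a bounded representation of the algebra of the bounded measurable functions by operators
of `X` (the values of `M` at other functions do not matter). -/
structure IsRepresentation {Ω : Type} [MeasurableSpace Ω] {X : Type} [NormedAddCommGroup X]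
    [NormedSpace ℂ X] (M : (Ω → ℂ) → (X →L[ℂ] X)) (K : ℝ) : Prop where
  one : M (fun _ => 1) = 1
  mul : ∀ f g : Ω → ℂ, BoundedMeasurable f → BoundedMeasurable g →
    M (fun v => f v * g v) = M f * M g
  smul : ∀ (c : ℂ) (f : Ω → ℂ), BoundedMeasurable f → M (fun v => c * f v) = c • M f
  bound : ∀ (f : Ω → ℂ) (C : ℝ), Measurable f → (∀ v, ‖f v‖ ≤ C) → ‖M f‖ ≤ K * C

/-- `U` is invertible, the norms of its integer powers are at most `K`, and `U M(f) = M(f ∘ τ) U`. -/
structure IsCovariant {Ω : Type} [MeasurableSpace Ω] {X : Type} [NormedAddCommGroup X]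
    [NormedSpace ℂ X] (τ : Ω ≃ᵐ Ω) (M : (Ω → ℂ) → (X →L[ℂ] X)) (K : ℝ) (U : (X →L[ℂ] X)ˣ) :
    Prop where
  bound : ∀ n : ℤ, ‖((U ^ n : (X →L[ℂ] X)ˣ) : X →L[ℂ] X)‖ ≤ K
  cov : ∀ f : Ω → ℂ, BoundedMeasurable f →
    (U : X →L[ℂ] X) * M f = M (fun v => f (τ v)) * (U : X →L[ℂ] X)

/-- The forward and the backward Birkhoff sums of `f` at `v` are at most `R (1 + n) ^ t`. -/
def SublinearSums {Ω : Type} [MeasurableSpace Ω] (τ : Ω ≃ᵐ Ω) (f : Ω → ℝ) (t : ℝ) (v : Ω) : Prop :=
  ∃ R : ℝ, ∀ n : ℕ, |∑ k ∈ Finset.range n, f (iter τ k v)| ≤ R * (1 + (n : ℝ)) ^ t ∧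
    |∑ k ∈ Finset.range n, f (iter τ (-((k : ℤ) + 1)) v)| ≤ R * (1 + (n : ℝ)) ^ t

theorem result : ∀ (X : Type) [NormedAddCommGroup X] [NormedSpace ℂ X] [CompleteSpace X]
    (Ω : Type) [MeasurableSpace Ω] [MeasurableSpace.CountablySeparated Ω]
    (μ : Measure Ω) [IsProbabilityMeasure μ] (τ : Ω ≃ᵐ Ω), MeasurePreserving τ μ μ →
    ∀ (M : (Ω → ℂ) → (X →L[ℂ] X)) (K : ℝ), IsRepresentation M K →
    (∀ E : Set Ω, MeasurableSet E → μ E ≠ 0 → M (E.indicator fun _ => 1) ≠ 0) →
    -- invertible covariant operators which have a subexponential growth on some set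
    (∀ T : (X →L[ℂ] X)ˣ, (∀ f : Ω → ℂ, BoundedMeasurable f →
        (T : X →L[ℂ] X) * M f = M (fun v => f (τ v)) * (T : X →L[ℂ] X)) →
      ∀ (E : Set Ω) (R t : ℝ), MeasurableSet E → μ E ≠ 0 → t < 1 →
      (∀ v ∈ E, ∀ n : ℕ, 1 ≤ n → iter τ n v ≠ v) →
      (∀ n : ℤ, ‖M (E.indicator fun _ => 1) * ((T ^ n : (X →L[ℂ] X)ˣ) : X →L[ℂ] X)‖
          ≤ Real.exp (R * (1 + |(n : ℝ)|) ^ t) ∧
        ‖((T ^ n : (X →L[ℂ] X)ˣ) : X →L[ℂ] X) * M (E.indicator fun _ => 1)‖
          ≤ Real.exp (R * (1 + |(n : ℝ)|) ^ t)) →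
      HasHyperinvariant (T : X →L[ℂ] X)) ∧
    ∀ U : (X →L[ℂ] X)ˣ, IsCovariant τ M K U →
    ∀ (w : Ω → ℂ) (D : ℝ), Measurable w → (∀ v, w v ≠ 0 ∧ ‖w v‖ ≤ D ∧ ‖w v‖⁻¹ ≤ D) →
    -- the local theorem
    (∀ l t : ℝ, t < 1 →
      μ {v | (∀ n : ℕ, 1 ≤ n → iter τ n v ≠ v) ∧
        SublinearSums τ (fun v => Real.log ‖w v‖ - l) t v} ≠ 0 →
      HasHyperinvariant (M w * (U : X →L[ℂ] X))) ∧
    -- mean squares
    ((∀ n : ℕ, 1 ≤ n → μ {v | iter τ n v = v} = 0) → ∀ l C δ : ℝ, 0 < δ →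
      (∀ n : ℕ, 1 ≤ n → ∫ v, (∑ k ∈ Finset.range n, (Real.log ‖w (iter τ k v)‖ - l)) ^ 2 ∂μ
        ≤ C * (n : ℝ) ^ (2 - 2 * δ)) →
      HasHyperinvariant (M w * (U : X →L[ℂ] X))) := by
  intro X _ _ _ Ω _ _ μ _ τ hτ M K hM hμ
  have hM' : Pool.Agent.U523.WC.IsRep M K :=
    ⟨hM.one, fun f g a b c d => hM.mul f g ⟨a, c⟩ ⟨b, d⟩, fun c f a b => hM.smul c f ⟨a, b⟩, hM.bound⟩
  refine ⟨fun T hT E R t hE hE0 ht hap hn => ?_, ?_⟩
  · have h3 : ∀ n : ℤ, Real.exp (R * (1 + |(n : ℝ)|) ^ t)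
        ≤ Real.exp (|R| * (1 + |(n : ℝ)|) ^ (max t 0)) := by
      intro n
      refine Real.exp_le_exp.2 ?_
      have h1 : (1 : ℝ) ≤ 1 + |(n : ℝ)| := by linarith [abs_nonneg (n : ℝ)]
      have h0 : (0 : ℝ) ≤ (1 + |(n : ℝ)|) ^ t := Real.rpow_nonneg (by linarith) _
      exact mul_le_mul (le_abs_self R) (Real.rpow_le_rpow_of_exponent_le h1 (le_max_left _ _)) h0
        (abs_nonneg R)
    exact Pool.Agent.U523.WC.local_gen (t := max t 0) (R := |R|) hτ hM' hμ
      (fun f a b => hT f ⟨a, b⟩) hE hE0 hap (le_max_right _ _) (max_lt ht one_pos)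
      fun n => ⟨(hn n).1.trans (h3 n), (hn n).2.trans (h3 n)⟩
  intro U hU w D hw hwD
  have hU' : Pool.Agent.U523.WC.IsCovariant τ M K U := ⟨hU.bound, fun f a b => hU.cov f ⟨a, b⟩⟩
  refine ⟨fun l t ht hG => ?_, fun hper l C δ hδ hS => ?_⟩
  · refine Pool.Agent.U523.WC.local_mod (t := max t 0) (l := l) hτ hM' hμ hU' hw
      (fun v => (hwD v).2.1) (fun v => (hwD v).2.2) (fun v => (hwD v).1) (le_max_right _ _)
      (max_lt ht one_pos) ?_
    intro h0
    apply hG
    refine measure_mono_null ?_ h0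
    rintro v ⟨h1, R, hR⟩
    have hR0 : 0 ≤ R := by
      have := (hR 0).1
      simpa using this
    refine ⟨h1, R, fun n => ?_⟩
    have h3 : R * (1 + (n : ℝ)) ^ t ≤ R * (1 + (n : ℝ)) ^ (max t 0) := by
      refine mul_le_mul_of_nonneg_left (Real.rpow_le_rpow_of_exponent_le ?_ (le_max_left _ _)) hR0
      linarith [(Nat.cast_nonneg n : (0 : ℝ) ≤ n)]
    exact ⟨(hR n).1.trans h3, (hR n).2.trans h3⟩
  · exact Pool.Agent.U523.WC.global_mod hτ hper hM' hμ hU' hw
      (fun v => (hwD v).2.1) (fun v => (hwD v).2.2) (fun v => (hwD v).1) hδ hS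

end Pool.Agent.Results.MP_5ac32f_an.CovariantOperators
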