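import Pool.Agent.U555.VM.Fr

/-!
# Hyperinvariant subspaces of `M_φ + K + κ F`, `K` with a dominated causal kernel, `F` of finite rank

`(Ω, μ)` is a σ-finite measure space, `1 < p < ∞`, `1/p + 1/q = 1`, and

`(T f)(x) = φ(x) f(x) + ∫ k(x, y) f(y) dμ(y)` on `L^p(μ)`

is as in `VolterraMultiplication.lean`: `φ` is any bounded complex-valued function (its essential range may
have interior), `k(x, y) = 0` unless `τ(y) < τ(x)` for a measurable real function `τ`, and
`|k(x, y)| ≤ a(x) b(y)` with `a ∈ L^p(μ)`, `b ∈ L^q(μ)`. The essential spectrum of the multiplication by `φ`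
has at least two points (`Essential`); this is the case if `μ` has no atoms and `φ` is not constant almost
everywhere. Examples: `L^p(0, 1)` with Volterra kernels; `ℓ^p(ℤ)` with a diagonal matrix whose entries have two
limit points, plus a strictly triangular matrix `(k_ij)`, `|k_ij| ≤ a_i b_j`.

Let `F` be any operator of finite rank on `L^p(μ)`. It need not be causal, and `T + κ F` need not have
invariant subspaces of the form `{f = 0 for τ ≤ t}`. Then `T + κ F` has a nontrivial closed hyperinvariant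
subspace for almost every `κ ∈ ℂ`, for almost every real `κ`, and for almost every `κ` with respect to all
measures with locally bounded logarithmic potential (measures with `m(B(z, r)) ≤ C r^s`, for instance).

Proof. The local resolvents `(z - T)⁻¹ u` of the vectors `u` and the values `v((z - T)⁻¹ u)` of functionals
exist for almost every `z` and have locally integrable logarithms of the norm (helper files
`Pool/Agent/U555/VM`). For `F = ∑ v_j ⊗ u_j` the determinant of `1 - κ (v_i((z - T)⁻¹ u_j))` is a polynomial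
in `κ` with value one at zero; hence the logarithm of its inverse is locally integrable in `z` for almost every
`κ` (`Pool.Agent.R276.CP.Pot.main` of the library), and the local resolvents of `T + κ F` are again averaged
against multipliers which vanish on the polynomials. This gives vectors and functionals with small local
spectra at two points of the spectrum, and a hyperinvariant subspace (`Pool.Agent.R277.SP.ann` of the library).
-/

set_option autoImplicit false

open MeasureTheory Set Filter Topology Metric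
open scoped ENNReal NNReal

namespace Pool.Agent.Results.MP_5ac32f_an.FiniteRankCouplings

/-- The measure `m` has no atoms, and on every disc `|t| < R` it is finite and
`∫ log⁺ (1 / |t - s|) dm(t)` is bounded in `s ∈ ℂ`. -/
def BoundedPotential (m : Measure ℂ) : Prop :=
  (∀ s : ℂ, m {s} = 0) ∧
  ∀ R : ℝ, m (ball (0:ℂ) R) ≠ ⊤ ∧ ∃ C : ℝ≥0, ∀ s : ℂ,
    ∫⁻ t in ball (0:ℂ) R, ENNReal.ofReal (Real.posLog ‖t - s‖⁻¹) ∂m ≤ C

section Defs

variable {Ω : Type} [MeasurableSpace Ω]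

/-- `c` is a point of the essential spectrum of the multiplication by `φ`: for all `ε > 0` the set
`{|φ - c| < ε}` contains arbitrarily many disjoint sets of positive measure -/
def Essential (μ : Measure Ω) (φ : Ω → ℂ) (c : ℂ) : Prop :=
  ∀ ε : ℝ, 0 < ε → ∀ n : ℕ, ∃ B : Fin n → Set Ω, (∀ i, MeasurableSet (B i)) ∧
    (∀ i, B i ⊆ {x | ‖φ x - c‖ < ε}) ∧ (∀ i, μ (B i) ≠ 0) ∧ Pairwise (fun i j => Disjoint (B i) (B j))

/-- every set of positive measure contains sets of arbitrarily small positive measure -/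
def Nonatomic (μ : Measure Ω) : Prop :=
  ∀ A : Set Ω, MeasurableSet A → μ A ≠ 0 → ∀ δ : ℝ≥0∞, 0 < δ →
    ∃ B ⊆ A, MeasurableSet B ∧ μ B ≠ 0 ∧ μ B < δ

/-- the bounded operators on `L^p(μ)` -/
abbrev Op (μ : Measure Ω) (p : ℝ≥0∞) [Fact (1 ≤ p)] : Type := Lp ℂ p μ →L[ℂ] Lp ℂ p μ

/-- the values of an element of `L^p(μ)` -/
noncomputable def val {μ : Measure Ω} {p : ℝ≥0∞} (f : Lp ℂ p μ) : Ω → ℂ := f

/-- `T f` -/
noncomputable def app {μ : Measure Ω} {p : ℝ≥0∞} [Fact (1 ≤ p)] (T : Op μ p) (f : Lp ℂ p μ) :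
    Lp ℂ p μ := T f

/-- `f + κ g` -/
noncomputable def lin {μ : Measure Ω} {p : ℝ≥0∞} (κ : ℂ) (f g : Lp ℂ p μ) : Lp ℂ p μ := f + κ • g

/-- `T f + κ F f` -/
noncomputable def pert {μ : Measure Ω} {p : ℝ≥0∞} [Fact (1 ≤ p)] (T F : Op μ p) (κ : ℂ)
    (f : Lp ℂ p μ) : Lp ℂ p μ := lin κ (app T f) (app F f)

/-- `(T f)(x) = φ(x) f(x) + ∫ k(x, y) f(y) dμ(y)` for all `f ∈ L^p(μ)` and almost all `x` -/
def Represents (μ : Measure Ω) (p : ℝ≥0∞) [Fact (1 ≤ p)] (φ : Ω → ℂ) (k : Ω → Ω → ℂ)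
    (T : Op μ p) : Prop :=
  ∀ f : Lp ℂ p μ, ∀ᵐ x ∂μ, val (app T f) x = φ x * val f x + ∫ y, k x y * val f y ∂μ

/-- `k(x, y) = 0` unless `τ(y) < τ(x)` -/
def Causal (τ : Ω → ℝ) (k : Ω → Ω → ℂ) : Prop := ∀ x y, τ x ≤ τ y → k x y = 0

/-- `|k(x, y)| ≤ a(x) b(y)` with nonnegative `a ∈ L^p(μ)` and `b ∈ L^q(μ)` -/
def Dominated (μ : Measure Ω) (p q : ℝ≥0∞) (k : Ω → Ω → ℂ) : Prop :=
  ∃ a b : Ω → ℝ, Measurable a ∧ Measurable b ∧ (∀ x, 0 ≤ a x) ∧ (∀ x, 0 ≤ b x) ∧
    MemLp a p μ ∧ MemLp b q μ ∧ ∀ x y, ‖k x y‖ ≤ a x * b y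

/-- the data of the operator `T` -/
structure Model (μ : Measure Ω) (p q : ℝ≥0∞) [Fact (1 ≤ p)] (φ : Ω → ℂ) (τ : Ω → ℝ)
    (k : Ω → Ω → ℂ) (T : Op μ p) : Prop where
  symbol : Measurable φ
  bounded : ∃ M : ℝ, ∀ᵐ x ∂μ, ‖φ x‖ ≤ M
  time : Measurable τ
  kernel : Measurable (Function.uncurry k)
  causal : Causal τ k
  dominated : Dominated μ p q k
  operator : Represents μ p φ k T

/-- the essential spectrum of the multiplication by `φ` has two points, or `μ` has no atoms and `φ` is not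
constant almost everywhere -/
def Nontrivial (μ : Measure Ω) (φ : Ω → ℂ) : Prop :=
  (∃ c₁ c₂ : ℂ, c₁ ≠ c₂ ∧ Essential μ φ c₁ ∧ Essential μ φ c₂) ∨
    (Nonatomic μ ∧ ¬ ∃ c : ℂ, ∀ᵐ x ∂μ, φ x = c)

/-- `F f = ∑ (∫ v_j f dμ) u_j`, a finite sum with `v_j ∈ L^q(μ)` and `u_j ∈ L^p(μ)` -/
def FiniteRank (μ : Measure Ω) (p q : ℝ≥0∞) [Fact (1 ≤ p)] (F : Op μ p) : Prop :=
  ∃ (m : ℕ) (v u : Fin m → Ω → ℂ), (∀ j, MemLp (v j) q μ) ∧ (∀ j, MemLp (u j) p μ) ∧
    ∀ f : Lp ℂ p μ, ∀ᵐ x ∂μ, val (app F f) x = ∑ j, (∫ y, v j y * val f y ∂μ) * u j x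

end Defs

/-- `S` has a closed subspace, neither `{0}` nor the whole space, which is invariant under every
bounded operator commuting with `S`. -/
def HasHyperinvariant {X : Type} [NormedAddCommGroup X] [NormedSpace ℂ X] (S : X → X) : Prop :=
  ∃ V : Submodule ℂ X, IsClosed (V : Set X) ∧ V ≠ ⊥ ∧ V ≠ ⊤ ∧
    ∀ Q : X →L[ℂ] X, (∀ x, Q (S x) = S (Q x)) → ∀ x ∈ V, Q x ∈ V

/-- `T + κ F` has a nontrivial hyperinvariant subspace -/
def Good {Ω : Type} [MeasurableSpace Ω] {μ : Measure Ω} {p : ℝ≥0∞} [Fact (1 ≤ p)] (T F : Op μ p)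
    (κ : ℂ) : Prop := HasHyperinvariant (pert T F κ)

theorem coe_sum {Ω : Type} [MeasurableSpace Ω] {μ : Measure Ω} {p : ℝ≥0∞} {m : ℕ}
    (s : Finset (Fin m)) (c : Fin m → ℂ) (u : Fin m → Ω → ℂ) (hu : ∀ j, MemLp (u j) p μ) :
    ∀ᵐ x ∂μ, (∑ j ∈ s, c j • (hu j).toLp (u j) : Lp ℂ p μ) x = ∑ j ∈ s, c j * u j x := by
  classical
  induction s using Finset.induction_on with
  | empty =>
    simp only [Finset.sum_empty]
    exact Lp.coeFn_zero ℂ p μ
  | insert j s hj ih =>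
    simp only [Finset.sum_insert hj]
    filter_upwards [ih, Lp.coeFn_add (c j • (hu j).toLp (u j))
      (∑ i ∈ s, c i • (hu i).toLp (u i)), Lp.coeFn_smul (c j) ((hu j).toLp (u j)),
      (hu j).coeFn_toLp] with x h1 h2 h3 h4
    rw [h2, Pi.add_apply, h3, Pi.smul_apply, h4, h1, smul_eq_mul]

/-- The exceptional set of the coupling constants is null for all measures with bounded logarithmic
potential, for the area and for the length on the real line. -/
def Generic (P : ℂ → Prop) : Prop :=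
  (∀ m : Measure ℂ, BoundedPotential m → ∀ᵐ t ∂m, P t) ∧ (∀ᵐ t : ℂ, P t) ∧ (∀ᵐ t : ℝ, P (t : ℂ))

theorem logbd_of {m : Measure ℂ} (hm : BoundedPotential m) : Pool.Agent.R276.CP.LogBd m := by
  obtain ⟨h0, hm⟩ := hm
  intro R
  obtain ⟨h1, C, hC⟩ := hm R
  refine ⟨C + (m (ball (0:ℂ) R)).toNNReal, ?_, fun s => ?_⟩
  · rw [ENNReal.coe_add, ENNReal.coe_toNNReal h1]
    exact le_add_self
  · calc ∫⁻ t in ball (0:ℂ) R, Pool.Agent.R276.CP.lm ‖t - s‖ ∂m
        = ∫⁻ t in ball (0:ℂ) R, ENNReal.ofReal (Real.posLog ‖t - s‖⁻¹) ∂m := by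
          refine lintegral_congr_ae (ae_restrict_of_ae ?_)
          have h2 : ∀ᵐ t ∂m, t ≠ s := by
            rw [ae_iff]
            simpa using h0 s
          filter_upwards [h2] with t ht
          unfold Pool.Agent.R276.CP.lm
          rw [if_neg (by simpa [sub_eq_zero] using ht)]
      _ ≤ C := hC s
      _ ≤ _ := by rw [ENNReal.coe_add]; exact le_self_add

/-- **Finite rank perturbations** of multiplication operators with a dominated causal kernel on
`L^p(μ)`, `1 < p < ∞`: if the essential spectrum of the multiplication operator has two points (for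
example, if `μ` has no atoms and `φ` is not constant), then `T + κ F` has a nontrivial hyperinvariant
subspace for almost every coupling constant `κ`. -/
theorem result {Ω : Type} [MeasurableSpace Ω] (μ : Measure Ω) [SigmaFinite μ]
    (p q : ℝ≥0∞) [Fact (1 ≤ p)] (hp1 : 1 < p) (hp2 : p ≠ ∞) (hpq : p⁻¹ + q⁻¹ = 1)
    (φ : Ω → ℂ) (τ : Ω → ℝ) (k : Ω → Ω → ℂ) (hess : Nontrivial μ φ)
    (T F : Op μ p) (hM : Model μ p q φ τ k T) (hF : FiniteRank μ p q F) : Generic (Good T F) := by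
  obtain ⟨hφ, hφb, hτ, hk, hc, hd, hT⟩ := hM
  obtain ⟨a, b, ha, hb, ha0, hb0, haL, hbL, hkb⟩ := hd
  obtain ⟨M, hM⟩ := hφb
  obtain ⟨m, v, u', hv, hu', hFv⟩ := hF
  set u : Fin m → Lp ℂ p μ := fun j => (hu' j).toLp (u' j) with hu
  obtain ⟨c₁, c₂, hne, hc₁, hc₂⟩ : ∃ c₁ c₂ : ℂ, c₁ ≠ c₂ ∧ Essential μ φ c₁ ∧ Essential μ φ c₂ := by
    rcases hess with h | ⟨hna, hconst⟩
    · exact h
    · obtain ⟨c₁, c₂, hne, h1, h2⟩ := Pool.Agent.U555.VM.two_values φ hφ hconst
      exact ⟨c₁, c₂, hne, Pool.Agent.U555.VM.esspt_of_noat hna hφ c₁ h1,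
        Pool.Agent.U555.VM.esspt_of_noat hna hφ c₂ h2⟩
  have hM' : ∀ᵐ x ∂μ, ‖φ x‖ ≤ |M| := by
    filter_upwards [hM] with x hx
    exact hx.trans (le_abs_self M)
  have hHT : ENNReal.HolderTriple q p 1 := ⟨by rw [add_comm, hpq, inv_one]⟩
  have hHT' : ENNReal.HolderTriple p q 1 := ⟨by rw [hpq, inv_one]⟩
  have hq : q ≠ ∞ := by
    rintro rfl
    rw [ENNReal.inv_top, add_zero, ENNReal.inv_eq_one] at hpq
    exact hp1.ne' hpq
  have hq1 : 1 ≤ q := by
    have h1 : q⁻¹ ≤ 1 := by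
      rw [← hpq]
      exact le_add_self
    rwa [ENNReal.inv_le_one] at h1
  have : Fact (1 ≤ q) := ⟨hq1⟩
  have hK : Pool.Agent.U555.VM.Ker τ a b k := ⟨hτ, ha, hb, ha0, hb0, hk, hkb, hc⟩
  set g : Fin m → Lp ℂ q μ := fun j => (hv j).toLp (v j) with hg
  have hop : ∀ κ : ℂ, T + κ • F = Pool.Agent.U555.VM.TK T g u κ := by
    intro κ
    ext1 f
    rw [Pool.Agent.U555.VM.TK_apply]
    show T f + κ • F f = _
    have hco : ∀ j, Pool.Agent.U555.VM.fnl μ p q (g j) f = ∫ y, v j y * f y ∂μ := by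
      intro j
      rw [Pool.Agent.U555.VM.fnl_apply]
      refine integral_congr_ae ?_
      filter_upwards [(hv j).coeFn_toLp] with x hx
      show g j x * f x = v j x * f x
      rw [hg]
      simp only
      rw [hx]
    have hF' : F f = ∑ j, Pool.Agent.U555.VM.fnl μ p q (g j) f • u j := by
      apply Lp.ext
      filter_upwards [hFv f, coe_sum Finset.univ
        (fun j => Pool.Agent.U555.VM.fnl μ p q (g j) f) u' hu'] with x h1 h2
      rw [h2]
      simp only [hco]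
      exact h1
    rw [hF']
  have main : ∀ ν : Measure ℂ, Pool.Agent.R276.CP.LogBd ν → ∀ᵐ κ ∂ν, Good T F κ := by
    intro ν hν
    filter_upwards [Pool.Agent.U555.VM.full3 hp2 hq hφ |M| (abs_nonneg M) hM' c₁ c₂ hne hc₁ hc₂
      haL hbL hK T hT g u ν hν] with κ hκ
    obtain ⟨V, h1, h2, h3, h4⟩ := hκ
    refine ⟨V, h1, h2, h3, fun Q hQ f hf => h4 Q ?_ f hf⟩
    rw [← hop κ]
    ext1 f
    exact hQ f
  refine ⟨fun ν hν => main ν (logbd_of hν), main volume Pool.Agent.Y891.NK.main_vol.1, ?_⟩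
  have h1 := main (Measure.map (fun t : ℝ => (t : ℂ)) volume) Pool.Agent.Y891.NK.main_vol.2
  exact ae_of_ae_map Complex.continuous_ofReal.measurable.aemeasurable h1

end Pool.Agent.Results.MP_5ac32f_an.FiniteRankCouplings
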