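import Pool.Agent.U38.HP.VSim
import Pool.Agent.U38.HP.Abs

/-!
# MP_5ac32f_an: matrix-weighted permutation and composition operators

Vocabulary (in `Pool.Agent.U38.HP`):
* `HasHyper T`: a nontrivial closed hyperinvariant subspace of `T`;
* `Linked T x φ`: either `T x_n = x_(n+1)` and `T^* φ_(n+1) = φ_n` for all `n ≥ 0`, or
  `T x_(n+1) = x_n` and `T^* φ_n = φ_(n+1)` for all `n ≥ 0`;
* `BoundedSystem e ε`: `ε_i(e_i) = 1`, `ε_i(e_j) = 0` for `i ≠ j`, bounded norms, the span of the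
  `e_i` is dense, the `ε_i` are total;
* `InfiniteOrbits σ`: no power `σ^n`, `n ≠ 0`, of the permutation `σ` has a fixed point;
* `Comparable σ v x y`: the two-sided products of the weights `v` along the orbit of `y` are at most
  a constant times the ones along the orbit of `x`;
* `LV p I Y = ℓ^p(I, Y)`, `sg p i y = e_i ⊗ y`;
* `VMono τ V T`: `T (e_i ⊗ y) = e_(τ i) ⊗ V_i y`; `VComp τ V T`: `(T f)(i) = V_i f(τ i)`;
* `OrbOver σ V a x`: `x_(n+1) = V_(σ^n a) x_n` for all integers `n`; `DualOver σ V a φ`: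
  `φ_(n+1) ∘ V_(σ^n a) = φ_n` for all integers `n`;
* `Tame σ V`: for all such `x` (over `a`) and `φ` (over `b`), `‖x_n‖ ‖φ_n‖` is bounded in `n`;
* `wt x n = ‖x_(n+1)‖ / ‖x_n‖`; `IsShift w W`: `W e_n = w_n e_(n+1)` on `ℓ^p(ℤ)`.

Block-weighted bilateral shifts of finite multiplicity are the case `I = ℤ`, `τ n = n + 1`; weighted
shifts on directed trees with matrix weights are the case `VComp` with `τ` the parent map (and the
weight zero at the root).
-/

set_option autoImplicit false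
set_option linter.unusedSectionVars false

open Filter Topology
open scoped ENNReal

namespace Pool.Agent.Results.MP_5ac32f_an.OrbitPairs

open Pool.Agent.U38.HP

/-- `T` is a scalar multiple of the identity -/
def IsScalar {X : Type} [NormedAddCommGroup X] [NormedSpace ℂ X] (T : X →L[ℂ] X) : Prop :=
  ∃ c : ℂ, T = c • (1 : X →L[ℂ] X)

/-- the weights `v` and the permutation `σ` are `w` and `τ`, or `w ∘ τ⁻¹` and `τ⁻¹` -/
def Same {I A : Type} (τ : I → I) (w : I → A) (σ : Equiv.Perm I) (v : I → A) : Prop :=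
  (∀ i, σ i = τ i ∧ v i = w i) ∨ (∀ i, τ (σ i) = i ∧ v i = w (σ i))

/-- linked orbits of an operator and of its adjoint with `inf ‖x_n‖ ‖φ_n‖ = 0` -/
def LinkedCriterion : Prop :=
  ∀ (X : Type) [NormedAddCommGroup X] [NormedSpace ℂ X] (T : X →L[ℂ] X) (x : ℕ → X)
    (φ : ℕ → (X →L[ℂ] ℂ)), Linked T x φ → x 0 ≠ 0 → φ 0 ≠ 0 →
    (∀ δ : ℝ, 0 < δ → ∃ n, ‖x n‖ * ‖φ n‖ < δ) → HasHyper T

/-- scalar weights in Banach spaces with a bounded biorthogonal system -/
def ScalarTrichotomy : Prop :=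
  ∀ (X I : Type) [NormedAddCommGroup X] [NormedSpace ℂ X] (e : I → X) (ε : I → (X →L[ℂ] ℂ)),
    BoundedSystem e ε → ∀ (τ : I → I) (w : I → ℂ) (T : X →L[ℂ] X),
    ((∀ i, T (e i) = w i • e (τ i)) ∨ (∀ i, (ε i).comp T = w i • ε (τ i))) →
    IsScalar T ∨ HasHyper T ∨
      ∃ (σ : Equiv.Perm I) (v : I → ℂ), Same τ w σ v ∧ (∀ i, T (e i) = v i • e (σ i)) ∧
        (∀ i, v i ≠ 0) ∧ InfiniteOrbits σ ∧ ∀ x y, Comparable σ v x y

/-- matrix weights on `ℓ^p(I, Y)`, `p < ∞`, `Y` of finite dimension -/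
def MatrixTrichotomy (p : ℝ≥0∞) [Fact (1 ≤ p)] : Prop :=
  ∀ (I Y : Type) [NormedAddCommGroup Y] [NormedSpace ℂ Y] [FiniteDimensional ℂ Y] (τ : I → I)
    (V : I → (Y →L[ℂ] Y)) (T : LV p I Y →L[ℂ] LV p I Y), VMono τ V T ∨ VComp τ V T →
    IsScalar T ∨ HasHyper T ∨
      ∃ (σ : Equiv.Perm I) (V' : I → (Y →L[ℂ] Y)), Same τ V σ V' ∧ VMono σ V' T ∧
        (∀ i, Function.Bijective (V' i)) ∧ InfiniteOrbits σ ∧ Tame σ V'

/-- the remaining operators behave as a scalar weighted shift, with the weights `wt x` of any orbit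
`x`, which are bounded below -/
def TameShift (p : ℝ≥0∞) [Fact (1 ≤ p)] : Prop :=
  ∀ (I Y : Type) [NormedAddCommGroup Y] [NormedSpace ℂ Y] [FiniteDimensional ℂ Y]
    (σ : Equiv.Perm I) (V : I → (Y →L[ℂ] Y)) (T : LV p I Y →L[ℂ] LV p I Y), VMono σ V T →
    (∀ i, Function.Bijective (V i)) → InfiniteOrbits σ → Tame σ V →
    ∀ (a : I) (x : ℤ → Y), OrbOver σ V a x → x 0 ≠ 0 →
      (∃ δ : ℝ, 0 < δ ∧ ∀ n : ℤ, δ ≤ ‖wt x n‖) ∧ (∃ W : L p ℤ →L[ℂ] L p ℤ, IsShift (wt x) W) ∧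
      ∀ W : L p ℤ →L[ℂ] L p ℤ, IsShift (wt x) W → (HasHyper T ↔ HasHyper W)

/-- `S T S⁻¹ (e_n ⊗ y) = w_n e_(n+1) ⊗ y`: the operator `T` is similar to the direct sum of `dim Y`
copies of the scalar shift with the weights `w` -/
def SimilarToCopies {p : ℝ≥0∞} [Fact (1 ≤ p)] {Y : Type} [NormedAddCommGroup Y] [NormedSpace ℂ Y]
    (T : LV p ℤ Y →L[ℂ] LV p ℤ Y) (w : ℤ → ℂ) : Prop :=
  ∃ S : LV p ℤ Y ≃L[ℂ] LV p ℤ Y,
    ∀ (n : ℤ) (y : Y), S (T (S.symm (sg p n y))) = sg p (n + 1) (w n • y)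

/-- block-weighted bilateral shifts of finite multiplicity without nontrivial hyperinvariant
subspace are similar to the direct sums of copies of a scalar bilateral shift of this kind -/
def BlockShifts (p : ℝ≥0∞) [Fact (1 ≤ p)] : Prop :=
  ∀ (Y : Type) [NormedAddCommGroup Y] [NormedSpace ℂ Y] [FiniteDimensional ℂ Y]
    (V : ℤ → (Y →L[ℂ] Y)) (T : LV p ℤ Y →L[ℂ] LV p ℤ Y), VMono (fun n => n + 1) V T →
    (∃ m, V m ≠ 0) →
    (¬ HasHyper T ↔ ∃ (w : ℤ → ℂ) (W : L p ℤ →L[ℂ] L p ℤ), IsShift w W ∧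
      (∃ δ : ℝ, 0 < δ ∧ ∀ n, δ ≤ ‖w n‖) ∧ ¬ HasHyper W ∧ SimilarToCopies T w)

/-- all operators with matrix weights on `ℓ^p` are scalar or have a nontrivial hyperinvariant
subspace -/
def MatrixProblem (p : ℝ≥0∞) [Fact (1 ≤ p)] : Prop :=
  ∀ (I Y : Type) [NormedAddCommGroup Y] [NormedSpace ℂ Y] [FiniteDimensional ℂ Y] (τ : I → I)
    (V : I → (Y →L[ℂ] Y)) (T : LV p I Y →L[ℂ] LV p I Y), VMono τ V T ∨ VComp τ V T →
    IsScalar T ∨ HasHyper T

/-- all scalar bilateral shifts on `ℓ^p(ℤ)` with weights bounded below have a nontrivial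
hyperinvariant subspace -/
def ShiftProblem (p : ℝ≥0∞) [Fact (1 ≤ p)] : Prop :=
  ∀ (w : ℤ → ℂ) (W : L p ℤ →L[ℂ] L p ℤ), IsShift w W → (∃ δ : ℝ, 0 < δ ∧ ∀ n, δ ≤ ‖w n‖) →
    HasHyper W

theorem scalar_trichotomy : ScalarTrichotomy := by
  intro X I _ _ e ε h τ w T hT
  by_cases hs : IsScalar T
  · exact Or.inl hs
  by_cases hn : HasHyper T
  · exact Or.inr (Or.inl hn)
  obtain ⟨σ, v, hm, hv, ho, hc⟩ := abs_classify h τ w T hT (fun c hc => hs ⟨c, hc⟩) hn
  refine Or.inr (Or.inr ⟨σ, v, ?_, hm, hv, ho, hc⟩)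
  rcases hT with hT | hT
  · left
    intro i
    have h1 : v i • e (σ i) = w i • e (τ i) := by rw [← hm, hT]
    have h2 := congrArg (ε (σ i)) h1
    rw [map_smul, map_smul, h.self, smul_eq_mul, smul_eq_mul, mul_one] at h2
    by_cases hi : σ i = τ i
    · refine ⟨hi, ?_⟩
      rw [← hi, h.self, mul_one] at h2
      exact h2
    · rw [h.other _ _ hi, mul_zero] at h2
      exact absurd h2 (hv i)
  · right
    intro i
    have h2 : ε (σ i) (T (e i)) = w (σ i) * ε (τ (σ i)) (e i) :=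
      congrArg (fun S : X →L[ℂ] ℂ => S (e i)) (hT (σ i))
    rw [hm, map_smul, h.self, smul_eq_mul, mul_one] at h2
    by_cases hi : τ (σ i) = i
    · refine ⟨hi, ?_⟩
      rw [hi, h.self, mul_one] at h2
      exact h2
    · rw [h.other _ _ hi, mul_zero] at h2
      exact absurd h2 (hv i)

variable {p : ℝ≥0∞} [Fact (1 ≤ p)]

theorem nontrivial_of {I Y : Type} [NormedAddCommGroup Y] [NormedSpace ℂ Y]
    {T : LV p I Y →L[ℂ] LV p I Y} (hs : ¬ IsScalar T) : Nontrivial Y ∧ Nonempty I := by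
  by_contra hcon
  apply hs
  refine ⟨0, ?_⟩
  ext f i
  rw [not_and_or] at hcon
  rcases hcon with hcon | hcon
  · rw [not_nontrivial_iff_subsingleton] at hcon
    exact Subsingleton.elim _ _
  · exact (hcon ⟨i⟩).elim

theorem matrix_trichotomy (hp : p ≠ ∞) : MatrixTrichotomy p := by
  intro I Y _ _ _ τ V T hT
  by_cases hs : IsScalar T
  · exact Or.inl hs
  by_cases hn : HasHyper T
  · exact Or.inr (Or.inl hn)
  obtain ⟨hY, -⟩ := nontrivial_of hs
  have hs' : ∀ c : ℂ, T ≠ c • (1 : LV p I Y →L[ℂ] LV p I Y) := fun c hc => hs ⟨c, hc⟩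
  obtain ⟨σ, V', hV, hm, hsame⟩ := perm_form hp τ V T hT hs' hn
  exact Or.inr (Or.inr ⟨σ, V', hsame, hm, hV, vinf hm hs' hn, tame_of hp hV hm hn⟩)

theorem tame_shift (hp : p ≠ ∞) : TameShift p := by
  intro I Y _ _ _ σ V T hT hV ho ht a x hx hx0
  have hY : Nontrivial Y := ⟨⟨x 0, 0, hx0⟩⟩
  obtain ⟨ι, π, -, -, -, h⟩ := section_exists hp hV hT ho ht hx hx0
  exact ⟨wt_lower hp hV hT ho ht hx hx0, ⟨_, h⟩,
    fun W hW => tame_iff hp hV hT ho ht hx hx0 W hW⟩

theorem reduction' (hp : p ≠ ∞) : MatrixProblem p ↔ ShiftProblem p := by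
  constructor
  · intro h
    refine (reduction hp).1 fun I τ w T hT => ?_
    refine h I ℂ τ (fun i => w i • (1 : ℂ →L[ℂ] ℂ)) T ?_
    have hsg : ∀ (i : I) (y : ℂ), (sg p i y : LV p I ℂ) = y • e p i := by
      intro i y
      ext j
      rw [lp.coeFn_smul, Pi.smul_apply, smul_eq_mul]
      by_cases hj : j = i
      · subst hj
        rw [sg_self, e_self, mul_one]
      · rw [sg_ne hj, e_ne hj, mul_zero]
    rcases hT with hT | hT
    · left
      intro i y
      rw [hsg, hsg, map_smul, hT i, smul_smul]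
      change (y * w i) • e p (τ i) = (w i * y) • e p (τ i)
      rw [mul_comm]
    · right
      intro f i
      exact hT f i
  · intro h I Y _ _ _ τ V T hT
    rcases matrix_trichotomy hp I Y τ V T hT with hs | hn | ⟨σ, V', -, hm, hV, ho, ht⟩
    · exact Or.inl hs
    · exact Or.inr hn
    · by_cases hs : IsScalar T
      · exact Or.inl hs
      obtain ⟨hY, ⟨a⟩⟩ := nontrivial_of hs
      obtain ⟨y, hy⟩ := exists_ne (0 : Y)
      obtain ⟨x, hx1, hx⟩ := exists_orb (σ := σ) hV a y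
      obtain ⟨h1, ⟨W, hW⟩, h2⟩ := tame_shift hp I Y σ V' T hm hV ho ht a x hx (by rw [hx1]; exact hy)
      exact Or.inr ((h2 W hW).2 (h _ W hW h1))

theorem block_shifts (hp : p ≠ ∞) : BlockShifts p := by
  intro Y _ _ _ V T hT hV
  constructor
  · intro hn
    have hY : Nontrivial Y := by
      obtain ⟨m, hm⟩ := hV
      by_contra hcon
      rw [not_nontrivial_iff_subsingleton] at hcon
      apply hm
      ext y
      exact Subsingleton.elim _ _
    obtain ⟨w, W, S, h1, h2, h3, h4⟩ := block_sim hp hT hV hn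
    exact ⟨w, W, h1, h2, h3, S, h4⟩
  · rintro ⟨w, W, h1, -, h3, S, h4⟩
    exact block_conv hp w W S h1 h3 h4

/-- **Hyperinvariant subspaces of matrix-weighted permutation and composition operators.** -/
theorem result :
    LinkedCriterion ∧ ScalarTrichotomy ∧
      ∀ (p : ℝ≥0∞) [Fact (1 ≤ p)], p ≠ ∞ →
        MatrixTrichotomy p ∧ TameShift p ∧ (MatrixProblem p ↔ ShiftProblem p) ∧ BlockShifts p :=
  ⟨fun _ _ _ T x φ h hx hφ hinf => hyp_of_linked T x φ h hx hφ hinf, scalar_trichotomy,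
    fun _ _ hp => ⟨matrix_trichotomy hp, tame_shift hp, reduction' hp, block_shifts hp⟩⟩

end Pool.Agent.Results.MP_5ac32f_an.OrbitPairs
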