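import Pool.Agent.U523.SF.Mid

/-!
# MP_5ac32f_an: perturbations of singular integral operators and of Toeplitz operators

Let `X` be a complex Banach space of functions on the circle `ℝ/ℤ` on which the continuous functions act by
multiplication and on which the Riesz projection `P` is bounded (`L^p`, `1 < p < ∞`, also with Muckenhoupt
weights), and let `Y` be the range of `P` (`H^p`). Let `a` and `b` be Hölder continuous with exponents
greater than one half. The following holds for `A = a P + b (1 - P)` on `X` with the curves `a(𝕋)`, `b(𝕋)`, and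
for the Toeplitz operator `A = P a` on `Y` with the curve `a(𝕋)`. `T` is called good if it is a multiple of the
identity or has a nontrivial closed hyperinvariant subspace.

1. For every operator `K` of finite rank `A + κ K` is good for all complex `κ` outside of a set of Hausdorff
   dimension zero.
2. If the spectrum of `A` is not contained in the curves, then `A + K` is good for every norm limit `K` of
   operators of finite rank.
3. Let `T₀` be an operator matrix on `Z₀ × X × Z₂` (or `Z₀ × Y × Z₂`), upper triangular with the diagonal entries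
   `R₀`, `A`, `R₂`; the Banach spaces `Z₀`, `Z₂`, the operators `R₀`, `R₂` and the entries above the diagonal are
   arbitrary. Suppose that a curve is not a point and is not contained in the union of the spectra of
   `R₀` and `R₂`. Then for every operator `K` of finite rank on the whole space `T₀ + κ K` is good for all
   complex `κ` outside of a set of Hausdorff dimension zero. If the spectrum of `A` has a point off the curves
   and the spectra of `R₀` and `R₂`, then `T₀ + K` is good for every norm limit `K` of operators of finite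
   rank.

The case `κ = 0` of 1 is `SingularIntegrals`/`ToeplitzHolder` of this page. In 3 the spectrum of `T₀` may have
interior points everywhere off a small disc, and neither `A` nor `T₀` is close to a normal operator.

Proof. The quotient `(a - z) / (b - z)` has a factorisation `ζ^k exp u exp v` with `u` analytic, `v` coanalytic
(library). The operator `(exp (-u) ζ^(-k) P + exp v (1 - P)) exp (-v) (b - z)⁻¹` is a right inverse of
`A - z` for `k ≤ 0` and a left inverse for `k ≥ 0`. If `k ≠ 0`, then there is an eigenvector or an eigenfunctional,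
and it survives: small perturbations preserve one-sided inverses, and if `S` is surjective with a kernel
and `F` has finite rank then `S` maps `S⁻¹ (range F)` onto `range F`, not injectively, so `S + F` has a kernel.
If `k = 0` for all `z`, then the spectrum is a null set, the logarithm of the norm of the resolvent is
integrable, and the theorem of the library on couplings (`Y271.CO.main_weyl`) applies. Toeplitz operators
are corners of `a P + β (1 - P)`, and the triangular matrices inherit all this in a small disc off the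
spectra of `R₀` and `R₂`.

From the library: `Y271.CO`, `R276.SI`, `Y283.TO`, `W610.HY`.
-/

set_option autoImplicit false

open scoped NNReal

namespace Pool.Agent.Results.MP_5ac32f_an.SingularIntegralCouplings

/-- `X` is a Banach space of functions on the circle `ℝ/ℤ`: `e n` are the exponentials `exp (2πint)`, their
span is dense, `ε₀` is the mean, `M a` is the multiplication by the continuous function `a`, and `P` is the
Riesz projection, the bounded operator with `P (e n) = e n` for `n ≥ 0` and `P (e n) = 0` for `n < 0`. -/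
structure CircleSpace {X : Type} [NormedAddCommGroup X] [NormedSpace ℂ X] (e : ℤ → X)
    (ε₀ : X →L[ℂ] ℂ) (M : C(UnitAddCircle, ℂ) → (X →L[ℂ] X)) (P : X →L[ℂ] X) : Prop where
  dense : Dense (Submodule.span ℂ (Set.range e) : Set X)
  mean : ∀ n : ℤ, ε₀ (e n) = if n = 0 then 1 else 0
  add : ∀ a b, M (a + b) = M a + M b
  smul : ∀ (c : ℂ) (a : C(UnitAddCircle, ℂ)), M (c • a) = c • M a
  one : M 1 = 1
  mul : ∀ a b, M (a * b) = M a * M b
  bounded : ∃ K : ℝ, ∀ a, ‖M a‖ ≤ K * ‖a‖
  shift : ∀ m n : ℤ, M (fourier m) (e n) = e (n + m)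
  riesz : ∀ n : ℤ, P (e n) = if 0 ≤ n then e n else 0

section

variable {X : Type} [NormedAddCommGroup X] [NormedSpace ℂ X]

/-- `T` is a multiple of the identity or has a closed hyperinvariant subspace, different from `0` and from
the whole space. -/
def Good (T : X →L[ℂ] X) : Prop :=
  (∃ c : ℂ, T = c • (1 : X →L[ℂ] X)) ∨
    ∃ W : Submodule ℂ X, IsClosed (W : Set X) ∧ W ≠ ⊥ ∧ W ≠ ⊤ ∧
      ∀ Q : X →L[ℂ] X, Q * T = T * Q → ∀ f ∈ W, Q f ∈ W

/-- `K` has finite rank -/
def FiniteRank (K : X →L[ℂ] X) : Prop :=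
  FiniteDimensional ℂ (LinearMap.range (K : X →ₗ[ℂ] X))

/-- `K` is a norm limit of operators of finite rank -/
def Approximable (K : X →L[ℂ] X) : Prop :=
  ∀ ε > 0, ∃ F : X →L[ℂ] X, FiniteRank F ∧ ‖K - F‖ < ε

/-- For every `K` of finite rank `T + κ K` is good for all `κ` outside of a set of Hausdorff dimension
zero. -/
def FiniteRankStable (T : X →L[ℂ] X) : Prop :=
  ∀ K : X →L[ℂ] X, FiniteRank K → dimH {κ : ℂ | ¬ Good (T + κ • K)} = 0

/-- `T + K` is good for every norm limit `K` of operators of finite rank. -/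
def ApproximableStable (T : X →L[ℂ] X) : Prop :=
  ∀ K : X →L[ℂ] X, Approximable K → Good (T + K)

variable {Z₀ : Type} [NormedAddCommGroup Z₀] [NormedSpace ℂ Z₀]
variable {Z₂ : Type} [NormedAddCommGroup Z₂] [NormedSpace ℂ Z₂]

/-- the operator matrix with the rows `(R₀, B₁)` and `(0, R)`, where `R` has the rows `(A, B₂)` and
`(0, R₂)` -/
def triangular (R₀ : Z₀ →L[ℂ] Z₀) (B₁ : X × Z₂ →L[ℂ] Z₀) (A : X →L[ℂ] X) (B₂ : Z₂ →L[ℂ] X)
    (R₂ : Z₂ →L[ℂ] Z₂) : Z₀ × (X × Z₂) →L[ℂ] Z₀ × (X × Z₂) :=
  (R₀.comp (ContinuousLinearMap.fst ℂ Z₀ (X × Z₂)) +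
    B₁.comp (ContinuousLinearMap.snd ℂ Z₀ (X × Z₂))).prod
    (((A.comp (ContinuousLinearMap.fst ℂ X Z₂) + B₂.comp (ContinuousLinearMap.snd ℂ X Z₂)).prod
      (R₂.comp (ContinuousLinearMap.snd ℂ X Z₂))).comp
        (ContinuousLinearMap.snd ℂ Z₀ (X × Z₂)))

end

/-- The statements 1, 2, 3 for an operator `A` and its curves `Γ = ⋃ range (f i)`. -/
def Perturbations {X : Type} [NormedAddCommGroup X] [NormedSpace ℂ X] [CompleteSpace X]
    (A : X →L[ℂ] X) {ι : Type} (f : ι → C(UnitAddCircle, ℂ)) : Prop :=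
  FiniteRankStable A ∧
  ((∃ z ∈ spectrum ℂ A, ∀ i, z ∉ Set.range (f i)) → ApproximableStable A) ∧
  ∀ (Z₀ Z₂ : Type) [NormedAddCommGroup Z₀] [NormedSpace ℂ Z₀] [CompleteSpace Z₀]
    [NormedAddCommGroup Z₂] [NormedSpace ℂ Z₂] [CompleteSpace Z₂]
    (R₀ : Z₀ →L[ℂ] Z₀) (B₁ : X × Z₂ →L[ℂ] Z₀) (B₂ : Z₂ →L[ℂ] X) (R₂ : Z₂ →L[ℂ] Z₂),
    (∀ i, ∀ t s, f i t ∉ spectrum ℂ R₀ → f i t ∉ spectrum ℂ R₂ → f i s ≠ f i t →
      FiniteRankStable (triangular R₀ B₁ A B₂ R₂)) ∧
    (∀ z ∈ spectrum ℂ A, (∀ i, z ∉ Set.range (f i)) → z ∉ spectrum ℂ R₀ → z ∉ spectrum ℂ R₂ →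
      ApproximableStable (triangular R₀ B₁ A B₂ R₂))

theorem perturbations_of {X : Type} [NormedAddCommGroup X] [NormedSpace ℂ X] [CompleteSpace X]
    (A : X →L[ℂ] X) {ι : Type} (f : ι → C(UnitAddCircle, ℂ)) (Γ : Set ℂ)
    (hΓ : ∀ z, (∀ i, z ∉ Set.range (f i)) → z ∉ Γ)
    (hD : ∀ R : ℝ, 0 ≤ R → ∃ H, Pool.Agent.U523.SF.Data A Γ R H)
    (hs : ∀ i t, f i t ∈ spectrum ℂ A)
    (h1 : ∀ K : X →L[ℂ] X, FiniteDimensional ℂ (LinearMap.range (K : X →ₗ[ℂ] X)) →
      dimH {κ : ℂ | ¬ ((∃ c : ℂ, A + κ • K = c • (1 : X →L[ℂ] X)) ∨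
        Pool.Agent.Y271.CO.HasHyper (A + κ • K))} = 0) : Perturbations A f := by
  refine ⟨fun K hK => h1 K hK, ?_, ?_⟩
  · rintro ⟨z, hz, hzf⟩ K hK
    obtain ⟨H, hH⟩ := hD ‖z‖ (norm_nonneg z)
    exact Pool.Agent.U523.SF.gen_index hH hz le_rfl (hΓ z hzf) K hK
  · intro Z₀ Z₂ _ _ _ _ _ _ R₀ B₁ B₂ R₂
    constructor
    · intro i t s h0 h2 hts K hK
      exact Pool.Agent.U523.SF.mid_finite R₀ B₁ A B₂ R₂ hD (f i) (hs i) hts h0 h2 K hK
    · intro z hz hzf h0 h2 K hK
      exact Pool.Agent.U523.SF.mid_index R₀ B₁ A B₂ R₂ hD h0 h2 hz (hΓ z hzf) K hK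

/-- **Perturbations of singular integral operators and of Toeplitz operators.** Let `X` be a Banach space of
functions on the circle as in `CircleSpace`, let `Y` be a Banach space isomorphic to the range of `P`
(`j : Y → X`, `p : X → Y`, `p j = 1`, `j p = P`), and let `a`, `b` be Hölder continuous with exponents greater
than `1/2`. Then `Perturbations` holds for `a P + b (1 - P)` with the curves `a`, `b`, and for the Toeplitz
operator `p a j` with the curve `a`. -/
theorem result (X : Type) [NormedAddCommGroup X] [NormedSpace ℂ X] [CompleteSpace X] (e : ℤ → X)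
    (ε₀ : X →L[ℂ] ℂ) (M : C(UnitAddCircle, ℂ) → (X →L[ℂ] X)) (P : X →L[ℂ] X)
    (hX : CircleSpace e ε₀ M P) (a b : C(UnitAddCircle, ℂ)) (Ca α Cb β : ℝ≥0)
    (hα : 1 / 2 < α) (hβ : 1 / 2 < β) (ha : HolderWith Ca α a) (hb : HolderWith Cb β b)
    (Y : Type) [NormedAddCommGroup Y] [NormedSpace ℂ Y] [CompleteSpace Y] (j : Y →L[ℂ] X)
    (p : X →L[ℂ] Y) (hpj : ∀ y, p (j y) = y) (hjp : ∀ x, j (p x) = P x) :
    Perturbations (M a * P + M b * (1 - P)) ![a, b] ∧
    Perturbations (p.comp ((M a).comp j)) ![a] := by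
  obtain ⟨L, q, hL, hq, hq2, hHD⟩ := Pool.Agent.Y283.TO.HD_of_holder a Ca α hα ha
  obtain ⟨L', q', hL', hq', hq2', hHD'⟩ := Pool.Agent.Y283.TO.HD_of_holder b Cb β hβ hb
  have h : Pool.Agent.R276.SI.SIO e ε₀ M P := by
    refine ⟨hX.dense, hX.add, hX.smul, hX.one, hX.mul, ?_, hX.shift, hX.riesz, hX.mean⟩
    obtain ⟨K, hK⟩ := hX.bounded
    exact ⟨max K 0, le_max_right _ _, fun f =>
      (hK f).trans (mul_le_mul_of_nonneg_right (le_max_left _ _) (norm_nonneg _))⟩
  have HD_mono : ∀ (f : ℝ → ℂ) (L q L' q' : ℝ), 0 < L → 0 ≤ q → L ≤ L' → q ≤ q' →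
      Pool.Agent.Y283.TO.HD f L q → Pool.Agent.Y283.TO.HD f L' q' := by
    intro f L q L' q' hL hq hL' hq' h n s t hst
    refine (h n s t hst).trans ?_
    have h1 : q ^ n ≤ q' ^ n := pow_le_pow_left₀ hq hq' n
    have h2 : 0 ≤ q ^ n := pow_nonneg hq n
    exact mul_le_mul hL' h1 h2 (hL.le.trans hL')
  have hL1 : 0 < max L L' := lt_max_of_lt_left hL
  have hq1 : 1 / 2 ≤ max q q' := le_max_of_le_left hq
  have hq3 : 2 * (max q q') ^ 2 < 1 := by
    rcases max_choice q q' with h1 | h1
    · rw [h1]; exact hq2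
    · rw [h1]; exact hq2'
  have ha' := HD_mono _ L q _ _ hL (by linarith) (le_max_left _ L') (le_max_left _ q') hHD
  have hb' := HD_mono _ L' q' _ _ hL' (by linarith) (le_max_right L _) (le_max_right q _) hHD'
  constructor
  · refine perturbations_of _ _ (Set.range a ∪ Set.range b) ?_ ?_ ?_ ?_
    · intro z hz
      rw [Set.mem_union, not_or]
      exact ⟨hz 0, hz 1⟩
    · intro R _
      obtain ⟨C, D, hD⟩ := Pool.Agent.U523.SF.sio_data h a b _ _ hL1 hq1 hq3 ha' hb' R
      exact ⟨_, hD⟩
    · intro i t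
      obtain ⟨h1, h2⟩ := Pool.Agent.U523.SF.sio_spec h a b
      fin_cases i
      · exact h1 t
      · exact h2 t
    · exact (Pool.Agent.U523.SF.sio_main h a b _ _ hL1 hq1 hq3 ha' hb').2
  · refine perturbations_of _ _ (Set.range a) ?_ ?_ ?_ ?_
    · intro z hz
      exact hz 0
    · intro R hR
      exact Pool.Agent.U523.SF.toep_data h hpj hjp a L q hL hq hq2 hHD R hR
    · intro i t
      fin_cases i
      exact Pool.Agent.U523.SF.toep_spec h hpj hjp a t
    · exact (Pool.Agent.U523.SF.toep_main h hpj hjp a L q hL hq hq2 hHD).2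

end Pool.Agent.Results.MP_5ac32f_an.SingularIntegralCouplings
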