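import Pool.Agent.U555.VM.Full2

/-!
# Hyperinvariant subspaces of `M_φ + K` on `L^p(μ)` with a dominated causal kernel

`(Ω, μ)` is a σ-finite measure space and `1 < p < ∞`, `1/p + 1/q = 1`. The operator is

`(T f)(x) = φ(x) f(x) + ∫ k(x, y) f(y) dμ(y)` on `L^p(μ)`,

where `φ` is any bounded complex-valued function, and the kernel `k` is

* causal: `k(x, y) = 0` unless `τ(y) < τ(x)`, for some measurable real function `τ` (the time), and
* dominated: `|k(x, y)| ≤ a(x) b(y)` with `a ∈ L^p(μ)` and `b ∈ L^q(μ)`.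

There is no assumption on the measure of the sets of constancy of `τ` or on the essential range of `φ`,
which may have interior points. Then the spectrum of `T` is the essential range of `φ`, and, unless `φ`
is constant almost everywhere, `T` has a nontrivial closed hyperinvariant subspace. (If `φ = c` almost
everywhere, then `T - c` is compact and Lomonosov's theorem applies.)

Proof. The terms of the Neumann series of the local resolvent `(z - T)⁻¹ u` are defined for almost every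
`z`, also in the spectrum, and the `(n+1)`st is bounded by `2^(-n) |z - φ(x)|⁻¹ a(x) W(z)`, where
`log W(z)` is at most the integral of `(b |u| + 2 a b) / |z - φ|`, hence locally integrable. Averages of
the series against suitable functions of `z` near `c ∈ σ(T)` which vanish on the polynomials
(`Pool.Agent.N812.IS.exists_mult` of the library) give vectors `x ≠ 0` with
`‖(T - c)^n x‖ ≤ C ε^n`; the same holds for the transposed operator on `L^q(μ)`. A vector of this kind
at `c₁` and a functional of this kind at `c₂ ≠ c₁` give the hyperinvariant subspace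
(`Pool.Agent.R277.SP.ann` of the library).
-/

set_option autoImplicit false

open MeasureTheory Set Filter Topology
open scoped ENNReal

namespace Pool.Agent.Results.MP_5ac32f_an.VolterraMultiplication

section Defs

variable {Ω : Type} [MeasurableSpace Ω]

/-- `(T f)(x) = φ(x) f(x) + ∫ k(x, y) f(y) dμ(y)` for all `f ∈ L^p(μ)` and almost all `x` -/
def Represents (μ : Measure Ω) (p : ℝ≥0∞) [Fact (1 ≤ p)] (φ : Ω → ℂ) (k : Ω → Ω → ℂ)
    (T : Lp ℂ p μ →L[ℂ] Lp ℂ p μ) : Prop :=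
  ∀ f : Lp ℂ p μ, ∀ᵐ x ∂μ, (T f) x = φ x * f x + ∫ y, k x y * f y ∂μ

/-- the essential range of `φ` -/
def essentialRange (μ : Measure Ω) (φ : Ω → ℂ) : Set ℂ :=
  {c | ∀ ε : ℝ, 0 < ε → μ {x | ‖φ x - c‖ < ε} ≠ 0}

/-- `k(x, y) = 0` unless `τ(y) < τ(x)` -/
def Causal (τ : Ω → ℝ) (k : Ω → Ω → ℂ) : Prop := ∀ x y, τ x ≤ τ y → k x y = 0

/-- `|k(x, y)| ≤ a(x) b(y)` with nonnegative `a ∈ L^p(μ)` and `b ∈ L^q(μ)` -/
def Dominated (μ : Measure Ω) (p q : ℝ≥0∞) (k : Ω → Ω → ℂ) : Prop :=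
  ∃ a b : Ω → ℝ, Measurable a ∧ Measurable b ∧ (∀ x, 0 ≤ a x) ∧ (∀ x, 0 ≤ b x) ∧
    MemLp a p μ ∧ MemLp b q μ ∧ ∀ x y, ‖k x y‖ ≤ a x * b y

/-- `T` has a closed subspace, neither `{0}` nor the whole space, which is invariant under every
bounded operator commuting with `T`. -/
def HasHyperinvariant {X : Type} [NormedAddCommGroup X] [NormedSpace ℂ X] (T : X →L[ℂ] X) : Prop :=
  ∃ V : Submodule ℂ X, IsClosed (V : Set X) ∧ V ≠ ⊥ ∧ V ≠ ⊤ ∧
    ∀ Q : X →L[ℂ] X, Q * T = T * Q → ∀ v ∈ V, Q v ∈ V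

end Defs

/-- **Multiplication operators with a dominated causal kernel** on `L^p(μ)`, `1 < p < ∞`: the operator
exists, its spectrum is the essential range of the symbol, and it has a nontrivial hyperinvariant
subspace if the symbol is not constant almost everywhere. -/
theorem result {Ω : Type} [MeasurableSpace Ω] (μ : Measure Ω) [SigmaFinite μ] (p q : ℝ≥0∞)
    [Fact (1 ≤ p)] (hp1 : 1 < p) (hp2 : p ≠ ∞) (hpq : p⁻¹ + q⁻¹ = 1)
    (φ : Ω → ℂ) (hφ : Measurable φ) (hφb : ∃ M : ℝ, ∀ᵐ x ∂μ, ‖φ x‖ ≤ M)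
    (τ : Ω → ℝ) (hτ : Measurable τ) (k : Ω → Ω → ℂ) (hk : Measurable (Function.uncurry k))
    (hc : Causal τ k) (hd : Dominated μ p q k) :
    (∃ T : Lp ℂ p μ →L[ℂ] Lp ℂ p μ, Represents μ p φ k T) ∧
    ∀ T : Lp ℂ p μ →L[ℂ] Lp ℂ p μ, Represents μ p φ k T →
      spectrum ℂ T = essentialRange μ φ ∧
      ((∃ c : ℂ, ∀ᵐ x ∂μ, φ x = c) ∨ HasHyperinvariant T) := by
  obtain ⟨a, b, ha, hb, ha0, hb0, haL, hbL, hkb⟩ := hd
  obtain ⟨M, hM⟩ := hφb
  have hM' : ∀ᵐ x ∂μ, ‖φ x‖ ≤ |M| := by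
    filter_upwards [hM] with x hx
    exact hx.trans (le_abs_self M)
  exact Pool.Agent.U555.VM.full2 hp1 hp2 hpq φ hφ |M| (abs_nonneg M) hM' a b haL hbL k
    ⟨hτ, ha, hb, ha0, hb0, hk, hkb, hc⟩

end Pool.Agent.Results.MP_5ac32f_an.VolterraMultiplication
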